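import Mathlib

/-!
# Bounded solutions of the discretised logistic equation with piecewise constant argument

For every `μ` with `0 < μ < 1` there is an initial value `y_0 > 0` with `y_1 = 0`; then all further
terms vanish, so that the solution is bounded.
-/

set_option autoImplicit false

namespace Pool.Agent.Results.MP_1375b8_an.BoundedSolutions

/-- The recursion `y_{2n+1} = y_{2n} + μ (1 - e^{y_n})` for `n ≥ 0` and
`y_{2n} = y_{2n-1} + μ (1 - e^{y_n})` for `n ≥ 1`. -/
def IsSolution (μ : ℝ) (y : ℕ → ℝ) : Prop :=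
  (∀ n : ℕ, y (2 * n + 1) = y (2 * n) + μ * (1 - Real.exp (y n))) ∧
  (∀ n : ℕ, 1 ≤ n → y (2 * n) = y (2 * n - 1) + μ * (1 - Real.exp (y n)))

theorem exists_root (μ : ℝ) (h0 : 0 < μ) (h1 : μ < 1) :
    ∃ z : ℝ, 0 < z ∧ z + μ * (1 - Real.exp z) = 0 := by
  obtain ⟨a, ha⟩ : ∃ a : ℝ, a = (1 - μ) / 2 := ⟨_, rfl⟩
  obtain ⟨b, hb⟩ : ∃ b : ℝ, b = 2 / μ := ⟨_, rfl⟩
  have ha0 : 0 < a := by rw [ha]; linarith
  have ha1 : a ≤ 1 := by rw [ha]; linarith
  have hb2 : 2 ≤ b := by rw [hb, le_div_iff₀ h0]; linarith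
  have hab : a ≤ b := by linarith
  have hbμ : μ * b = 2 := by rw [hb]; field_simp
  have hfa : 0 < a + μ * (1 - Real.exp a) := by
    have h2 := (abs_le.1 (Real.abs_exp_sub_one_sub_id_le (x := a) (by rwa [abs_of_pos ha0]))).2
    have h3 : μ * (Real.exp a - 1) ≤ μ * (a + a ^ 2) := mul_le_mul_of_nonneg_left (by linarith) h0.le
    have h4 : 0 < a * (1 - μ - μ * a) := by
      refine mul_pos ha0 ?_
      rw [ha]
      nlinarith
    nlinarith
  have hfb : b + μ * (1 - Real.exp b) < 0 := by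
    have h2 := Real.quadratic_le_exp_of_nonneg (x := b) (by linarith)
    have h3 : μ * (b + b ^ 2 / 2) ≤ μ * (Real.exp b - 1) := mul_le_mul_of_nonneg_left (by linarith) h0.le
    have h4 : μ * (b + b ^ 2 / 2) = μ * b + (μ * b) * b / 2 := by ring
    rw [h4, hbμ] at h3
    linarith
  have hc : ContinuousOn (fun z : ℝ => z + μ * (1 - Real.exp z)) (Set.Icc a b) := by fun_prop
  obtain ⟨z, hz, hz0⟩ := intermediate_value_Icc' hab hc ⟨hfb.le, hfa.le⟩
  exact ⟨z, lt_of_lt_of_le ha0 hz.1, hz0⟩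

/-- **Bounded solutions.** For every `μ ∈ (0,1)` there is an initial value `y_0 > 0` for which the
solution of the recursion vanishes from the index `1` on. In particular it is not true that for every
`μ > 0` and every `y_0 > 0` the solution of the recursion is unbounded. -/
theorem result :
    (∀ μ : ℝ, 0 < μ → μ < 1 → ∃ y₀ : ℝ, 0 < y₀ ∧
      (∃ y : ℕ → ℝ, IsSolution μ y ∧ y 0 = y₀) ∧
      ∀ y : ℕ → ℝ, IsSolution μ y → y 0 = y₀ → ∀ n : ℕ, 1 ≤ n → y n = 0) ∧
    ¬ ∀ μ : ℝ, 0 < μ → ∀ y : ℕ → ℝ, IsSolution μ y → 0 < y 0 → ∀ B : ℝ, ∃ n : ℕ, B < |y n| := by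
  have key : ∀ μ : ℝ, 0 < μ → μ < 1 → ∃ y₀ : ℝ, 0 < y₀ ∧
      (∃ y : ℕ → ℝ, IsSolution μ y ∧ y 0 = y₀) ∧
      ∀ y : ℕ → ℝ, IsSolution μ y → y 0 = y₀ → ∀ n : ℕ, 1 ≤ n → y n = 0 := by
    intro μ h0 h1
    obtain ⟨z, hz, hz0⟩ := exists_root μ h0 h1
    refine ⟨z, hz, ⟨fun n => if n = 0 then z else 0, ⟨?_, ?_⟩, by simp⟩, ?_⟩
    · intro n
      rcases Nat.eq_zero_or_pos n with rfl | hn
      · simpa using hz0.symm
      · have h2 : n ≠ 0 := by omega
        simp [h2]
    · intro n hn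
      have h2 : n ≠ 0 := by omega
      have h3 : 2 * n - 1 ≠ 0 := by omega
      simp [h2, h3]
    · intro y hy hy0 n
      induction n using Nat.strong_induction_on with
      | _ n ih =>
        intro hn
        have hy1 : y 1 = 0 := by
          have := hy.1 0
          simp only [mul_zero, zero_add, hy0] at this
          rw [this, hz0]
        rcases Nat.even_or_odd n with ⟨m, hm⟩ | ⟨m, hm⟩
        · have hm1 : 1 ≤ m := by omega
          have h2 := hy.2 m hm1
          rw [ih (2 * m - 1) (by omega) (by omega), ih m (by omega) hm1] at h2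
          rw [show n = 2 * m by omega, h2]
          simp
        · rcases Nat.eq_zero_or_pos m with rfl | hm1
          · rw [hm]; simpa using hy1
          · have h2 := hy.1 m
            rw [ih (2 * m) (by omega) (by omega), ih m (by omega) hm1] at h2
            rw [hm, h2]
            simp
  refine ⟨key, fun h => ?_⟩
  obtain ⟨z, hz, ⟨y, hy, hy0⟩, hall⟩ := key (1 / 2) (by norm_num) (by norm_num)
  obtain ⟨n, hn⟩ := h (1 / 2) (by norm_num) y hy (hy0 ▸ hz) z
  rcases Nat.eq_zero_or_pos n with rfl | hn1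
  · rw [hy0, abs_of_pos hz] at hn
    exact lt_irrefl _ hn
  · rw [hall y hy hy0 n hn1, abs_zero] at hn
    linarith

end Pool.Agent.Results.MP_1375b8_an.BoundedSolutions
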